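import Mathlib

/-!
A Tychonoff space without any fan (in particular without any Cld-fan) which is not a `k`-space.
The space is the Sigma-product in `2 ^ κ`, `κ` of size `aleph_2`, together with the constant
point `1`.
-/

set_option autoImplicit false

open Set Topology Filter Cardinal

namespace Pool.Agent.Results.MP_99bf3a_gt.NoFanNotKSpace

universe u v

/-- The indexed family `F` is compact-finite: every compact set meets `F i` for only finitely
many indices `i`. -/
def CompactFinite {X : Type u} [TopologicalSpace X] {ι : Type v} (F : ι → Set X) : Prop :=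
  ∀ K : Set X, IsCompact K → {i | (F i ∩ K).Nonempty}.Finite

/-- The indexed family `F` is a fan: compact-finite but not locally finite. -/
def IsFan {X : Type u} [TopologicalSpace X] {ι : Type v} (F : ι → Set X) : Prop :=
  CompactFinite F ∧ ¬ LocallyFinite F

/-- The indexed family `F` is a Cld-fan: a fan all of whose members are closed. -/
def IsCldFan {X : Type u} [TopologicalSpace X] {ι : Type v} (F : ι → Set X) : Prop :=
  IsFan F ∧ ∀ i, IsClosed (F i)

/-- `X` is a `k`-space: a set `C` is closed as soon as `C ∩ K` is closed in `K` for every compact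
`K`. -/
def IsKSpace (X : Type u) [TopologicalSpace X] : Prop :=
  ∀ C : Set X, (∀ K : Set X, IsCompact K → IsClosed ((↑) ⁻¹' C : Set K)) → IsClosed C

/-- An index set of size `aleph_2`. -/
abbrev Idx : Type := (Cardinal.aleph 2).out

/-- The Sigma-product in `2 ^ Idx` together with the constant point `true`. -/
abbrev Sp : Type := {x : Idx → Bool // {i | x i = true}.Countable ∨ x = fun _ => true}

lemma mk_idx : #Idx = Cardinal.aleph 2 := Cardinal.mk_out _

instance : Uncountable Idx := by
  rw [← Cardinal.aleph0_lt_mk_iff, mk_idx]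
  exact Cardinal.aleph0_lt_aleph.2 (by norm_num)

/-- every sequence lies in a compact set -/
lemma seq_compact (x : ℕ → Sp) : ∃ K : Set Sp, IsCompact K ∧ ∀ n, x n ∈ K := by
  classical
  let S : Set Idx := ⋃ n ∈ {n | (x n).1 ≠ fun _ => true}, {i | (x n).1 i = true}
  have hS : S.Countable := by
    refine (to_countable _).biUnion fun n hn => ?_
    rcases (x n).2 with h | h
    · exact h
    · exact absurd h hn
  let K' : Set (Idx → Bool) := {y | ∀ i, i ∉ S → y i = false} ∪ {fun _ => true}
  have hK' : IsCompact K' := by
    refine IsCompact.union ?_ isCompact_singleton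
    refine IsClosed.isCompact ?_
    have : {y : Idx → Bool | ∀ i, i ∉ S → y i = false} =
        ⋂ i ∈ Sᶜ, {y : Idx → Bool | y i = false} := by
      ext y
      simp
    rw [this]
    exact isClosed_biInter fun i _ => isClosed_eq (continuous_apply i) continuous_const
  refine ⟨(↑) ⁻¹' K', ?_, fun n => ?_⟩
  · have hind : Topology.IsInducing (Subtype.val : Sp → (Idx → Bool)) :=
      Topology.IsInducing.subtypeVal
    rw [hind.isCompact_iff]
    have : ((↑) : Sp → (Idx → Bool)) '' ((↑) ⁻¹' K') = K' := by
      rw [image_preimage_eq_iff]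
      rintro y (hy | hy)
      · refine ⟨⟨y, Or.inl (hS.mono ?_)⟩, rfl⟩
        intro i hi
        by_contra h
        have := hy i h
        rw [mem_ofPred_eq] at hi
        rw [this] at hi
        exact Bool.noConfusion hi
      · exact ⟨⟨y, Or.inr hy⟩, rfl⟩
    rw [this]
    exact hK'
  · by_cases h : (x n).1 = fun _ => true
    · right
      exact h
    · left
      intro i hi
      by_contra hne
      apply hi
      simp only [S, mem_iUnion]
      exact ⟨n, h, by simpa using hne⟩

theorem no_fan {ι : Type v} (F : ι → Set Sp) : ¬ IsFan F := by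
  rintro ⟨h1, h2⟩
  apply h2
  have hfin : {i | (F i).Nonempty}.Finite := by
    by_contra hinf
    have hinf' : {i | (F i).Nonempty}.Infinite := hinf
    let e := hinf'.natEmbedding
    have hx : ∀ n, ∃ x, x ∈ F (e n) := fun n => (e n).2
    choose x hx using hx
    obtain ⟨K, hK, hxK⟩ := seq_compact x
    have h3 := h1 K hK
    refine (infinite_of_injective_forall_mem (f := fun n => (e n : ι)) ?_ ?_) h3
    · exact Subtype.val_injective.comp e.injective
    · intro n
      exact ⟨x n, hx n, hxK n⟩
  intro x
  refine ⟨univ, univ_mem, hfin.subset ?_⟩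
  rintro i ⟨y, hy, _⟩
  exact ⟨y, hy⟩

/-- the extra point -/
def top : Sp := ⟨fun _ => true, Or.inr rfl⟩

lemma not_closed : ¬ IsClosed ({top}ᶜ : Set Sp) := by
  classical
  rw [isClosed_compl_iff]
  intro h
  rw [isOpen_induced_iff] at h
  obtain ⟨U, hU, hU'⟩ := h
  have h1 : (fun _ => true : Idx → Bool) ∈ U := by
    have : top ∈ ((↑) : Sp → (Idx → Bool)) ⁻¹' U := by rw [hU']; rfl
    exact this
  rw [isOpen_pi_iff] at hU
  obtain ⟨I, u, hu, hsub⟩ := hU _ h1
  let y : Idx → Bool := fun i => decide (i ∈ I)
  have hy : {i | y i = true}.Countable := by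
    refine (I.finite_toSet.countable).mono ?_
    intro i hi
    simpa [y] using hi
  have hyU : y ∈ U := by
    apply hsub
    intro i hi
    have : y i = true := by simpa [y] using hi
    rw [this]
    exact (hu i hi).2
  have h2 : (⟨y, Or.inl hy⟩ : Sp) ∈ ((↑) : Sp → (Idx → Bool)) ⁻¹' U := hyU
  rw [hU'] at h2
  have h3 : y = fun _ => true := congrArg Subtype.val h2
  have h4 : (univ : Set Idx).Countable := by
    refine hy.mono ?_
    intro i _
    rw [h3]
    rfl
  exact (not_countable_univ (α := Idx)) h4

theorem not_k : ¬ IsKSpace Sp := by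
  classical
  intro hk
  apply not_closed
  apply hk
  intro K hK
  -- a set of indices of size aleph_1
  obtain ⟨S, hS⟩ : ∃ S : Set Idx, #S = Cardinal.aleph 1 := by
    rw [← Cardinal.le_mk_iff_exists_set, mk_idx]
    exact Cardinal.aleph_le_aleph.2 (by norm_num)
  have hSunc : ¬ S.Countable := by
    rw [← Cardinal.le_aleph0_iff_set_countable, hS, not_le]
    exact Cardinal.aleph0_lt_aleph_one
  have hSinf : Infinite S := by
    rw [Cardinal.infinite_iff, hS]
    exact Cardinal.aleph0_lt_aleph_one.le
  let K' : Set (Idx → Bool) := ((↑) : Sp → (Idx → Bool)) '' K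
  have hK' : IsCompact K' := hK.image continuous_subtype_val
  have h1 : ∀ t : Idx, ∃ u : Finset S, ∀ x ∈ K', (∀ s ∈ u, x s = true) → x t = true := by
    intro t
    have hc : IsCompact (K' ∩ {x | x t = false}) :=
      hK'.inter_right (isClosed_eq (continuous_apply t) continuous_const)
    obtain ⟨u, hu⟩ := hc.elim_finite_subfamily_closed
      (fun s : S => {x : Idx → Bool | x s = true})
      (fun s => isClosed_eq (continuous_apply _) continuous_const) (by
        rw [eq_empty_iff_forall_notMem]
        rintro x ⟨⟨⟨k, hk, rfl⟩, hx⟩, hxS⟩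
        rcases k.2 with h | h
        · apply hSunc
          refine h.mono ?_
          intro s hs
          exact mem_iInter.1 hxS ⟨s, hs⟩
        · rw [h] at hx
          exact Bool.noConfusion hx)
    refine ⟨u, fun x hx hxu => ?_⟩
    by_contra hne
    have hmem : x ∈ (K' ∩ {x | x t = false}) ∩ ⋂ i ∈ u, {x : Idx → Bool | x i = true} := by
      refine ⟨⟨hx, by simpa using hne⟩, ?_⟩
      simp only [mem_iInter]
      exact fun s hs => hxu s hs
    rw [hu] at hmem
    exact hmem
  choose u hu using h1
  have hcard : #(Finset S) < #Idx := by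
    rw [Cardinal.mk_finset_of_infinite, hS, mk_idx]
    exact Cardinal.aleph_lt_aleph.2 (by norm_num)
  obtain ⟨u0, hu0⟩ := Cardinal.exists_uncountable_fiber u hcard
  have hT : ¬ (u ⁻¹' {u0}).Countable := by
    intro h
    exact (not_countable_iff.2 hu0) h.to_subtype
  -- the singleton of the extra point is relatively open
  have hcompl : ((↑) ⁻¹' ({top}ᶜ : Set Sp) : Set K) =
      {k : K | ∀ s ∈ u0, k.1.1 s = true}ᶜ := by
    ext k
    have : k.1 = top ↔ ∀ s ∈ u0, k.1.1 s = true := by
      constructor
      · intro h s _
        rw [h]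
        rfl
      · intro h
        apply Subtype.ext
        rcases k.1.2 with h' | h'
        · exfalso
          apply hT
          refine h'.mono ?_
          intro t ht
          refine hu t k.1.1 ⟨k.1, k.2, rfl⟩ ?_
          rw [show u t = u0 from ht]
          exact h
        · exact h'
    exact not_congr this
  rw [hcompl, isClosed_compl_iff]
  have : {k : K | ∀ s ∈ u0, k.1.1 s = true} = ⋂ s ∈ u0, {k : K | k.1.1 s = true} := by
    ext k
    simp only [mem_iInter, mem_ofPred_eq]
  rw [this]
  refine isOpen_biInter_finset fun s _ => ?_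
  have hcont : Continuous fun k : K => k.1.1 (s : Idx) :=
    (continuous_apply _).comp (continuous_subtype_val.comp continuous_subtype_val)
  exact (isOpen_discrete {true}).preimage hcont

/-- There is a Tychonoff space which contains no fan at all (hence no Cld-fan), for index sets in
any universe, and which is not a `k`-space. -/
theorem result : ∃ (X : Type) (_ : TopologicalSpace X), T35Space X ∧
    (∀ (ι : Type v) (F : ι → Set X), ¬ IsFan F) ∧
    (∀ (ι : Type v) (F : ι → Set X), ¬ IsCldFan F) ∧
    ¬ IsKSpace X :=
  ⟨Sp, inferInstance, inferInstance, fun _ F => no_fan F, fun _ F h => no_fan F h.1, not_k⟩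

end Pool.Agent.Results.MP_99bf3a_gt.NoFanNotKSpace
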